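import Pool.Agent.TH997.SP.Math
import Pool.Agent.TH997.US.F3

set_option autoImplicit false

/-!
# A set with very sparse complement containing no isolated zeros of early recurrences
-/

namespace Pool.Agent.TH997.SP

open Polynomial Finset Pool.Agent.H692R2.USS Pool.Agent.TH997.US
open scoped Classical

/-- the `j`-th input -/
def DD (j : ℕ) : List Z × List Z := cv (Denumerable.ofNat (List ℤ × List ℤ) j)

theorem DD_encode (p : List ℤ × List ℤ) : DD (Encodable.encode p) = cv p := by
  unfold DD
  rw [Denumerable.ofNat_encode]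

/-- the number of isolated zeros of the first `j + 1` inputs is at most -/
noncomputable def WW (j : ℕ) : ℕ := ∑ i ∈ range (j + 1), Bd (DD i)

/-- from this number on the isolated zeros of the `j`-th input are removed -/
noncomputable def NN (F H : ℕ → ℕ) (j : ℕ) : ℕ := sInf {N | max j (H j) ≤ N ∧ WW j ≤ F N}

/-- the removed numbers -/
def RR (F H : ℕ → ℕ) (n : ℕ) : Prop := ∃ j < n + 1, NN F H j ≤ n ∧ Spor (DD j) n

section
variable {F H : ℕ → ℕ} (hmono : Monotone F) (hunb : ∀ B, ∃ N, B ≤ F N)
include hmono hunb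

theorem NN_ex (H : ℕ → ℕ) (j : ℕ) : ∃ N, max j (H j) ≤ N ∧ WW j ≤ F N := by
  obtain ⟨N, hN⟩ := hunb (WW j)
  exact ⟨max (max j (H j)) N, le_max_left _ _, hN.trans (hmono (le_max_right _ _))⟩

theorem NN_spec (j : ℕ) : max j (H j) ≤ NN F H j ∧ WW j ≤ F (NN F H j) :=
  Nat.sInf_mem (s := {N | max j (H j) ≤ N ∧ WW j ≤ F N}) (NN_ex hmono hunb H j)

theorem le_NN (j : ℕ) : j ≤ NN F H j := (le_max_left _ _).trans (NN_spec hmono hunb j).1

theorem NN_iff (j N : ℕ) : NN F H j = N ↔ (max j (H j) ≤ N ∧ WW j ≤ F N) ∧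
    ∀ M < N, ¬ (max j (H j) ≤ M ∧ WW j ≤ F M) := by
  have h1 := NN_spec (H := H) hmono hunb j
  have h2 : ∀ M, max j (H j) ≤ M ∧ WW j ≤ F M → NN F H j ≤ M := fun M hM =>
    Nat.sInf_le (s := {N | max j (H j) ≤ N ∧ WW j ≤ F N}) hM
  constructor
  · rintro rfl
    exact ⟨h1, fun M hM h => absurd (h2 M h) (by omega)⟩
  · rintro ⟨h3, h4⟩
    rcases lt_trichotomy (NN F H j) N with h | h | h
    · exact absurd h1 (h4 _ h)
    · exact h
    · exact absurd (h2 N h3) (by omega)

omit hmono hunb in
theorem WW_mono {i j : ℕ} (h : i ≤ j) : WW i ≤ WW j :=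
  Finset.sum_le_sum_of_subset (Finset.range_subset_range.2 (by omega))

/-- few numbers are removed -/
theorem RR_card (N : ℕ) : ((range N).filter (fun n => RR F H n)).card ≤ F N := by
  set J := (range N).filter (fun j => NN F H j < N) with hJ
  have hsub : (range N).filter (fun n => RR F H n) ⊆
      J.biUnion (fun j => (range N).filter (fun n => Spor (DD j) n)) := by
    intro n hn
    rw [Finset.mem_filter, Finset.mem_range] at hn
    obtain ⟨hnN, j, hj, hNj, hS⟩ := hn
    rw [Finset.mem_biUnion]
    refine ⟨j, ?_, ?_⟩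
    · rw [hJ, Finset.mem_filter, Finset.mem_range]
      exact ⟨by omega, by omega⟩
    · rw [Finset.mem_filter, Finset.mem_range]
      exact ⟨hnN, hS⟩
  refine (Finset.card_le_card hsub).trans (Finset.card_biUnion_le.trans ?_)
  rcases J.eq_empty_or_nonempty with hE | hE
  · rw [hE, Finset.sum_empty]
    exact Nat.zero_le _
  · set m := J.max' hE
    have hm : m ∈ J := J.max'_mem hE
    have h1 : ∑ j ∈ J, ((range N).filter (fun n => Spor (DD j) n)).card ≤ WW m := by
      refine (Finset.sum_le_sum fun j _ => count (DD j) N).trans ?_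
      refine Finset.sum_le_sum_of_subset fun j hj => ?_
      rw [Finset.mem_range]
      exact Nat.lt_succ_of_le (J.le_max' j hj)
    refine h1.trans ((NN_spec (H := H) hmono hunb m).2.trans (hmono ?_))
    exact (Finset.mem_filter.1 hm).2.le

/-- isolated zeros outside the removed set are small -/
theorem small {j n : ℕ} (hn : ¬ RR F H n) (hS : Spor (DD j) n) : n < NN F H j := by
  by_contra hcon
  exact hn ⟨j, by have := le_NN (H := H) hmono hunb j; omega, by omega, hS⟩

/-- the removed set in terms of the inputs -/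
theorem RR_iff (n : ℕ) : RR F H n ↔
    ∃ p : List ℤ × List ℤ, NN F H (Encodable.encode p) ≤ n ∧ Spor (cv p) n := by
  constructor
  · rintro ⟨j, _, h2, h3⟩
    refine ⟨Denumerable.ofNat (List ℤ × List ℤ) j, ?_, h3⟩
    rwa [Denumerable.encode_ofNat]
  · rintro ⟨p, h2, h3⟩
    refine ⟨Encodable.encode p, ?_, h2, ?_⟩
    · have := le_NN (H := H) hmono hunb (Encodable.encode p)
      omega
    · rwa [DD_encode]

omit hmono hunb in
/-- the complement of the removed set meets every progression -/
theorem meets' (hlog : ∀ N, F N ≤ Nat.log 2 N) {T : ℕ} (hT : 1 ≤ T)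
    (hcard : ∀ N, ((range N).filter (fun n => RR F H n)).card ≤ F N) (r : ℕ) (hr : r < T) :
    ∃ l, ¬ RR F H (r + T * l) := by
  by_contra hcon
  push Not at hcon
  set M := 2 ^ T + 1
  have h3 : M ≤ ((Finset.range (T * M)).filter (fun n => RR F H n)).card := by
    have hinj : Function.Injective (fun l : ℕ => r + T * l) := by
      intro a b hab
      simp only [Nat.add_left_cancel_iff] at hab
      exact Nat.eq_of_mul_eq_mul_left (by omega) hab
    have h4 : (Finset.range M).image (fun l : ℕ => r + T * l) ⊆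
        (Finset.range (T * M)).filter (fun n => RR F H n) := by
      intro x hx
      rw [Finset.mem_image] at hx
      obtain ⟨l, hl, rfl⟩ := hx
      rw [Finset.mem_range] at hl
      rw [Finset.mem_filter, Finset.mem_range]
      refine ⟨?_, hcon l⟩
      have : T * (l + 1) ≤ T * M := Nat.mul_le_mul_left _ (by omega)
      rw [mul_add, mul_one] at this
      omega
    have h5 := Finset.card_le_card h4
    rwa [Finset.card_image_of_injective _ hinj, Finset.card_range] at h5
  have h6 := (h3.trans (hcard _)).trans (hlog _)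
  have h7 : T * M < 2 ^ M := by
    have h8 : T < 2 ^ T := Nat.lt_two_pow_self
    have h9 : 2 ^ T + 1 ≤ 2 ^ (T + 1) := by
      rw [pow_succ]
      have := Nat.one_le_two_pow (n := T)
      omega
    have h10 : T * M < 2 ^ T * 2 ^ (T + 1) := by
      calc T * M < 2 ^ T * M := Nat.mul_lt_mul_of_pos_right h8 (by omega)
        _ ≤ _ := Nat.mul_le_mul_left _ h9
    refine h10.trans_le ?_
    rw [← pow_add]
    refine Nat.pow_le_pow_right (by norm_num) ?_
    -- 2 T + 1 ≤ 2 ^ T + 1
    have : 2 * T ≤ 2 ^ T := by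
      clear * - hT
      induction T with
      | zero => omega
      | succ k ih =>
        rcases Nat.eq_zero_or_pos k with rfl | hk
        · norm_num
        · have := ih hk
          rw [pow_succ]
          omega
    omega
  have h8 := Nat.log_lt_of_lt_pow (b := 2) (by positivity) h7
  omega

end

/-! ### computability -/

open Pool.Agent.Helper446.RE (cp_eq cp_le cp_lt cp_comp cite computable_of_graph)

theorem cvv {α : Type} [Primcodable α] {p : α → List Z × List Z} {n : α → ℕ}
    (hp : Computable p) (hn : Computable n) : Computable fun x => vv (p x) (n x) := by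
  unfold vv
  fun_prop

theorem clast : Computable fun p : List Z × List Z => lc p.1 (p.1.length - 1) := by
  unfold lc
  fun_prop

theorem cqf : Computable qf := by
  refine computable_of_graph (ComputablePred.to_re ?_)
  have h1 : ComputablePred (fun x : (List Z × List Z) × ℕ =>
      ((lc x.1.1 (x.1.1.length - 1)).1 + (lc x.1.1 (x.1.1.length - 1)).2 + 3 ≤ x.2 ∧ x.2.Prime) ∧
      ∀ m < x.2, ¬ ((lc x.1.1 (x.1.1.length - 1)).1 + (lc x.1.1 (x.1.1.length - 1)).2 + 3 ≤ m ∧
        m.Prime)) := by
    have hl : Computable fun x : (List Z × List Z) × ℕ => lc x.1.1 (x.1.1.length - 1) :=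
      clast.comp Computable.fst
    have hl' : Computable fun x : ((List Z × List Z) × ℕ) × ℕ => lc x.1.1.1 (x.1.1.1.length - 1) :=
      clast.comp (Computable.fst.comp Computable.fst)
    refine cp_and (cp_and (cp_le (by fun_prop) (by fun_prop)) (cp_prime (by fun_prop))) ?_
    refine cp_all (p := fun (x : (List Z × List Z) × ℕ) m =>
      ¬ ((lc x.1.1 (x.1.1.length - 1)).1 + (lc x.1.1 (x.1.1.length - 1)).2 + 3 ≤ m ∧ m.Prime))
      ?_ (by fun_prop)
    exact ComputablePred.not (cp_and (cp_le (by fun_prop) (by fun_prop)) (cp_prime (by fun_prop)))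
  refine h1.of_eq fun x => ?_
  exact (Nat.find_eq_iff (Nat.exists_infinite_primes ((lc x.1.1 (x.1.1.length - 1)).1 +
    (lc x.1.1 (x.1.1.length - 1)).2 + 3))).symm

theorem cTf : Computable Tf := by
  unfold Tf
  refine F3.cfact ?_
  have := cqf
  fun_prop

theorem cBd : Computable Bd := by
  have hT := cTf
  unfold Bd
  refine csum (g := fun (p : List Z × List Z) r => ∑ l ∈ range p.1.length,
    (2 * ((vv p (r + Tf p * l)).1 + (vv p (r + Tf p * l)).2) + 2)) ?_ hT
  refine csum (g := fun (x : (List Z × List Z) × ℕ) l =>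
    (2 * ((vv x.1 (x.2 + Tf x.1 * l)).1 + (vv x.1 (x.2 + Tf x.1 * l)).2) + 2)) ?_ (by fun_prop)
  have h1 : Computable fun x : ((List Z × List Z) × ℕ) × ℕ =>
      vv x.1.1 (x.1.2 + Tf x.1.1 * x.2) := cvv (by fun_prop) (by
        have : Computable fun x : ((List Z × List Z) × ℕ) × ℕ => Tf x.1.1 :=
          hT.comp (by fun_prop)
        fun_prop)
  fun_prop

theorem cp_nz : ComputablePred (fun x : (List Z × List Z) × ℕ => nz x.1 x.2) := by
  unfold nz
  refine cp_ex (p := fun (x : (List Z × List Z) × ℕ) l =>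
    (vv x.1 (x.2 + Tf x.1 * l)).1 ≠ (vv x.1 (x.2 + Tf x.1 * l)).2) ?_ (by fun_prop)
  have hT := cTf
  have h1 : Computable fun x : ((List Z × List Z) × ℕ) × ℕ =>
      vv x.1.1 (x.1.2 + Tf x.1.1 * x.2) := cvv (by fun_prop) (by
        have : Computable fun x : ((List Z × List Z) × ℕ) × ℕ => Tf x.1.1 :=
          hT.comp (by fun_prop)
        fun_prop)
  exact ComputablePred.not (cp_eq (by fun_prop) (by fun_prop))

theorem cp_Spor : ComputablePred (fun x : (List Z × List Z) × ℕ => Spor x.1 x.2) := by
  have h1 : Computable fun x : (List Z × List Z) × ℕ => vv x.1 x.2 :=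
    cvv (by fun_prop) (by fun_prop)
  have hT : Computable fun x : (List Z × List Z) × ℕ => Tf x.1 := cTf.comp (by fun_prop)
  refine cp_and (cp_comp cp_val (f := fun x : (List Z × List Z) × ℕ => x.1) (by fun_prop))
    (cp_and (cp_eq (by fun_prop) (by fun_prop)) ?_)
  exact cp_comp cp_nz (f := fun x : (List Z × List Z) × ℕ => (x.1, x.2 % Tf x.1)) (by fun_prop)

theorem cDD : Computable DD :=
  computable_cv.comp (Primrec.to_comp (Primrec.ofNat (List ℤ × List ℤ)))

theorem cWW : Computable WW := by
  unfold WW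
  exact csum (g := fun (_ : ℕ) i => Bd (DD i)) (cBd.comp (cDD.comp Computable.snd)) (by fun_prop)

section
variable {F H : ℕ → ℕ} (hF : Computable F) (hH : Computable H) (hmono : Monotone F) (hunb : ∀ B, ∃ N, B ≤ F N)
include hF hH hmono hunb

theorem cNN : Computable (NN F H) := by
  refine computable_of_graph (ComputablePred.to_re ?_)
  have hW := cWW
  have hm : Computable (fun j : ℕ => max j (H j)) :=
    (Primrec.nat_max.to_comp).comp Computable.id hH
  have h1 : ComputablePred (fun x : ℕ × ℕ => (max x.1 (H x.1) ≤ x.2 ∧ WW x.1 ≤ F x.2) ∧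
      ∀ M < x.2, ¬ (max x.1 (H x.1) ≤ M ∧ WW x.1 ≤ F M)) := by
    refine cp_and (cp_and (cp_le (hm.comp Computable.fst) (by fun_prop))
      (cp_le (hW.comp (by fun_prop)) (hF.comp (by fun_prop)))) ?_
    refine cp_all (p := fun (x : ℕ × ℕ) M => ¬ (max x.1 (H x.1) ≤ M ∧ WW x.1 ≤ F M)) ?_
      (by fun_prop)
    exact ComputablePred.not (cp_and (cp_le (hm.comp (Computable.fst.comp Computable.fst))
      (by fun_prop)) (cp_le (hW.comp (by fun_prop)) (hF.comp (by fun_prop))))
  exact h1.of_eq fun x => (NN_iff hmono hunb x.1 x.2).symm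

theorem cp_RR : ComputablePred (fun n : ℕ => RR F H n) := by
  have hN := cNN hF hH hmono hunb
  unfold RR
  refine cp_ex (p := fun (n : ℕ) j => NN F H j ≤ n ∧ Spor (DD j) n) ?_ (by fun_prop)
  refine cp_and (cp_le (hN.comp (by fun_prop)) (by fun_prop)) ?_
  exact cp_comp cp_Spor (f := fun x : ℕ × ℕ => (DD x.2, x.1))
    ((cDD.comp Computable.snd).pair Computable.fst)

/-- the list of the isolated zeros outside the removed set -/
theorem exists_list : ∃ A : List ℤ × List ℤ → List ℕ, Computable A ∧
    ∀ p n, n ∈ A p ↔ ¬ RR F H n ∧ Spor (cv p) n := by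
  have hN := cNN hF hH hmono hunb
  have hR := cp_RR hF hH hmono hunb
  set P : (List ℤ × List ℤ) → ℕ → Prop := fun p n => ¬ RR F H n ∧ Spor (cv p) n with hP
  have hcP : ComputablePred (fun x : (List ℤ × List ℤ) × ℕ => P x.1 x.2) :=
    cp_and (ComputablePred.not (cp_comp hR Computable.snd))
      (cp_comp cp_Spor (f := fun x : (List ℤ × List ℤ) × ℕ => (cv x.1, x.2))
        ((computable_cv.comp Computable.fst).pair Computable.snd))
  refine ⟨fun p => Nat.rec [] (fun n L => if P p n then n :: L else L)
    (NN F H (Encodable.encode p)), ?_, ?_⟩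
  · refine Computable.nat_rec (f := fun p : List ℤ × List ℤ => NN F H (Encodable.encode p))
      (g := fun _ => ([] : List ℕ))
      (h := fun (p : List ℤ × List ℤ) (y : ℕ × List ℕ) => if P p y.1 then y.1 :: y.2 else y.2)
      (hN.comp Computable.encode) (Computable.const _) ?_
    refine cite (p := fun x : (List ℤ × List ℤ) × (ℕ × List ℕ) => P x.1 x.2.1) ?_ ?_ ?_
    · exact cp_comp hcP (f := fun x : (List ℤ × List ℤ) × (ℕ × List ℕ) => (x.1, x.2.1))
        (by fun_prop)
    · exact Computable.list_cons.comp (Computable.fst.comp Computable.snd)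
        (Computable.snd.comp Computable.snd)
    · exact Computable.snd.comp Computable.snd
  · intro p n
    have key : ∀ N : ℕ, n ∈ (Nat.rec [] (fun n L => if P p n then n :: L else L) N : List ℕ) ↔
        n < N ∧ P p n := by
      intro N
      induction N with
      | zero => simp
      | succ N ih =>
        show n ∈ (if P p N then N :: (Nat.rec [] (fun n L => if P p n then n :: L else L) N : List ℕ)
          else (Nat.rec [] (fun n L => if P p n then n :: L else L) N : List ℕ)) ↔ _
        split_ifs with h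
        · rw [List.mem_cons, ih]
          constructor
          · rintro (rfl | ⟨h1, h2⟩)
            · exact ⟨Nat.lt_succ_self _, h⟩
            · exact ⟨by omega, h2⟩
          · rintro ⟨h1, h2⟩
            rcases Nat.lt_succ_iff_lt_or_eq.1 h1 with h3 | h3
            · exact Or.inr ⟨h3, h2⟩
            · exact Or.inl h3
        · rw [ih]
          constructor
          · rintro ⟨h1, h2⟩
            exact ⟨by omega, h2⟩
          · rintro ⟨h1, h2⟩
            rcases Nat.lt_succ_iff_lt_or_eq.1 h1 with h3 | h3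
            · exact ⟨h3, h2⟩
            · rw [h3] at h2
              exact absurd h2 h
    show n ∈ (Nat.rec [] (fun n L => if P p n then n :: L else L)
      (NN F H (Encodable.encode p)) : List ℕ) ↔ _
    rw [key]
    refine ⟨fun h => h.2, fun h => ⟨?_, h⟩⟩
    refine small hmono hunb h.1 ?_
    rw [DD_encode]
    exact h.2

/-- existence of zeros outside the removed set is decidable -/
theorem cp_exists (hlog : ∀ N, F N ≤ Nat.log 2 N) :
    ComputablePred (fun p : List ℤ × List ℤ =>
      Val (cv p) ∧ ∃ n, ¬ RR F H n ∧ sq (cv p) n = 0) := by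
  have hN := cNN hF hH hmono hunb
  have hR := cp_RR hF hH hmono hunb
  have h1 : ComputablePred (fun p : List ℤ × List ℤ => Val (cv p) ∧
      ((∃ n < NN F H (Encodable.encode p), ¬ RR F H n ∧ Spor (cv p) n) ∨
        ∃ r < Tf (cv p), ¬ nz (cv p) r)) := by
    refine cp_and (cp_comp cp_val computable_cv) (cp_or ?_ ?_)
    · refine cp_ex (p := fun (p : List ℤ × List ℤ) n => ¬ RR F H n ∧ Spor (cv p) n) ?_
        (hN.comp Computable.encode)
      exact cp_and (ComputablePred.not (cp_comp hR Computable.snd))
        (cp_comp cp_Spor (f := fun x : (List ℤ × List ℤ) × ℕ => (cv x.1, x.2))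
        ((computable_cv.comp Computable.fst).pair Computable.snd))
    · refine cp_ex (p := fun (p : List ℤ × List ℤ) r => ¬ nz (cv p) r) ?_ (cTf.comp computable_cv)
      exact ComputablePred.not (cp_comp cp_nz
        (f := fun x : (List ℤ × List ℤ) × ℕ => (cv x.1, x.2))
        ((computable_cv.comp Computable.fst).pair Computable.snd))
  refine h1.of_eq fun p => ?_
  refine and_congr_right fun hp => ?_
  constructor
  · rintro (⟨n, _, h2, h3⟩ | ⟨r, hr, h2⟩)
    · exact ⟨n, h2, (iv_eq_zero _).2 h3.2.1⟩
    · obtain ⟨l, hl⟩ := meets' hlog (Tf_pos (cv p)) (RR_card (H := H) hmono hunb) r hr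
      exact ⟨_, hl, zero_class hp h2 l⟩
  · rintro ⟨n, h2, h3⟩
    by_cases hz : nz (cv p) (n % Tf (cv p))
    · have hS : Spor (cv p) n := ⟨hp, (iv_eq_zero _).1 h3, hz⟩
      refine Or.inl ⟨n, ?_, h2, hS⟩
      refine small hmono hunb h2 ?_
      rw [DD_encode]
      exact hS
    · exact Or.inr ⟨n % Tf (cv p), Nat.mod_lt _ (Tf_pos (cv p)), hz⟩

end

end Pool.Agent.TH997.SP
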