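import Pool.Agent.TH997.US.Fin
import Pool.Agent.TH997.US.C9
import Pool.Agent.TH997.US.E2

set_option autoImplicit false

/-!
# Zeros of linear recurrence sequences: an effective bound for the number of isolated zeros
-/

namespace Pool.Agent.TH997.SP

open Polynomial Finset Pool.Agent.H692R2.USS Pool.Agent.TH997.US
open scoped Classical

/-- the subsequences along a progression satisfy a recurrence of the same order -/
theorem decim {g : ℤ[X]} (hg : g.Monic) (T : ℕ) : ∃ h : ℤ[X], h.Monic ∧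
    h.natDegree = g.natDegree ∧ ∀ u : ℕ → ℤ, Ann g u → ∀ r, Ann h (fun l => u (r + T * l)) := by
  have hfree : Module.Free ℤ (AdjoinRoot g) := hg.free_adjoinRoot
  have hfin : Module.Finite ℤ (AdjoinRoot g) := hg.finite_adjoinRoot
  set y : AdjoinRoot g := AdjoinRoot.mk g (X ^ T) with hy
  set f : Module.End ℤ (AdjoinRoot g) := Algebra.lmul ℤ (AdjoinRoot g) y with hf
  have hrank : Module.finrank ℤ (AdjoinRoot g) = g.natDegree := by
    rw [(AdjoinRoot.powerBasis' hg).finrank, AdjoinRoot.powerBasis'_dim]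
  refine ⟨f.charpoly, f.charpoly_monic, ?_, ?_⟩
  · rw [LinearMap.charpoly_natDegree, hrank]
  · intro u hu r
    have h1 : aeval f f.charpoly = 0 := f.aeval_self_charpoly
    have h2 : aeval y f.charpoly = 0 := by
      have h3 : (Algebra.lmul ℤ (AdjoinRoot g)) (aeval y f.charpoly) = 0 := by
        rw [← h1]
        exact (Polynomial.aeval_algHom_apply (Algebra.lmul ℤ (AdjoinRoot g)) y f.charpoly).symm
      have h4 := congrArg (fun F : Module.End ℤ (AdjoinRoot g) => F 1) h3
      simpa using h4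
    have h5 : g ∣ f.charpoly.comp (X ^ T) := by
      rw [← AdjoinRoot.mk_eq_zero, ← h2, hy, Polynomial.comp, Polynomial.hom_eval₂,
        Polynomial.aeval_def]
      congr 1
    have h6 : Ann (f.charpoly.comp (X ^ T)) u := hu.of_dvd h5
    unfold Ann at h6
    rw [Polynomial.aeval_comp, map_pow, aeval_X,
      aeval_eq_sum_range' (n := f.charpoly.natDegree + 1) (Nat.lt_succ_self _)] at h6
    rw [ann_iff (Nat.lt_succ_self _)]
    intro n
    have h7 := congrFun h6 (r + T * n)
    rw [LinearMap.sum_apply, Finset.sum_apply] at h7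
    rw [← show (0 : ℕ → ℤ) (r + T * n) = 0 from rfl, ← h7]
    refine Finset.sum_congr rfl fun i _ => ?_
    rw [LinearMap.smul_apply, Pi.smul_apply, smul_eq_mul, ← pow_mul, E_pow_apply]
    congr 2
    ring

theorem period_mod {p : ℕ} [Fact p.Prime] {g : (ZMod p)[X]} (hg : g.Monic)
    (h0 : g.coeff 0 ≠ 0) : g ∣ X ^ (p ^ g.natDegree).factorial - 1 := by
  have hfin : Module.Finite (ZMod p) (AdjoinRoot g) := hg.finite_adjoinRoot
  have hfree : Module.Free (ZMod p) (AdjoinRoot g) := hg.free_adjoinRoot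
  have hfinite : Finite (AdjoinRoot g) := Module.finite_of_finite (ZMod p)
  have hcard : Nat.card (AdjoinRoot g) = p ^ g.natDegree := by
    rw [Module.natCard_eq_pow_finrank (K := ZMod p), Nat.card_zmod,
      (AdjoinRoot.powerBasis' hg).finrank, AdjoinRoot.powerBasis'_dim]
  have hunit : IsUnit (AdjoinRoot.mk g X) := by
    obtain ⟨a, b, hab⟩ := E2.coprime_X h0
    have h1 : AdjoinRoot.mk g b * AdjoinRoot.mk g X = 1 := by
      rw [← map_mul, ← map_one (AdjoinRoot.mk g), ← hab, map_add, map_mul (AdjoinRoot.mk g) a g,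
        AdjoinRoot.mk_self, mul_zero, zero_add]
    exact IsUnit.of_mul_eq_one_right _ h1
  obtain ⟨x, hx⟩ := hunit
  have h2 : x ^ (p ^ g.natDegree).factorial = 1 := by
    rw [← orderOf_dvd_iff_pow_eq_one]
    refine Nat.dvd_factorial (orderOf_pos x) ?_
    rw [← hcard]
    exact (orderOf_le_card).trans (Nat.card_le_card_of_injective (fun y : (AdjoinRoot g)ˣ =>
      (y : AdjoinRoot g)) Units.val_injective)
  rw [← AdjoinRoot.mk_eq_zero, map_sub, map_pow, ← hx, map_one, ← Units.val_pow_eq_pow_val, h2,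
    Units.val_one, sub_self]

/-- an explicit period modulo `q` -/
theorem period {g : ℤ[X]} (hg : g.Monic) {q : ℕ} (hq : q.Prime) (h0 : g.coeff 0 ≠ 0)
    (hlt : (g.coeff 0).natAbs < q) : ∃ a w : ℤ[X],
      X ^ (q ^ g.natDegree).factorial - 1 = g * a + C (q : ℤ) * w := by
  have : Fact q.Prime := ⟨hq⟩
  set gb := g.map (Int.castRingHom (ZMod q)) with hgb
  have hgbm : gb.Monic := hg.map _
  have hgb0 : gb.coeff 0 ≠ 0 := by
    rw [hgb, coeff_map]
    intro h
    have h1 : ((g.coeff 0 : ℤ) : ZMod q) = 0 := h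
    rw [ZMod.intCast_zmod_eq_zero_iff_dvd] at h1
    have h2 := Int.natAbs_dvd_natAbs.2 h1
    rw [Int.natAbs_natCast] at h2
    have h3 := Nat.le_of_dvd (Int.natAbs_pos.2 h0) h2
    omega
  have hd := period_mod hgbm hgb0
  rw [hgb, hg.natDegree_map, ← hgb] at hd
  set T := (q ^ g.natDegree).factorial
  have h1 := modByMonic_add_div (X ^ T - 1 : ℤ[X]) g
  have h2 : ((X ^ T - 1 : ℤ[X]) %ₘ g).map (Int.castRingHom (ZMod q)) = 0 := by
    rw [Polynomial.map_modByMonic _ hg]
    rw [(modByMonic_eq_zero_iff_dvd hgbm)]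
    simpa using hd
  have h3 : C (q : ℤ) ∣ (X ^ T - 1 : ℤ[X]) %ₘ g := by
    rw [C_dvd_iff_dvd_coeff]
    intro i
    have h4 := congrArg (fun f => f.coeff i) h2
    simp only [coeff_map, coeff_zero] at h4
    rw [← ZMod.intCast_zmod_eq_zero_iff_dvd]
    exact h4
  obtain ⟨w, hw⟩ := h3
  refine ⟨(X ^ T - 1) /ₘ g, w, ?_⟩
  rw [← hw, add_comm]
  exact h1.symm

/-! ### the data attached to an input -/

/-- the `n`-th term of the sequence coded by `p` -/
def vv (p : List Z × List Z) (n : ℕ) : Z := run (Pool.Agent.H884R2.Sko.Fq p.1) p.2 n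

theorem sq_eq (p : List Z × List Z) (n : ℕ) : sq p n = iv (vv p n) := rfl

/-- a prime larger than the last coefficient -/
noncomputable def qf (p : List Z × List Z) : ℕ :=
  Nat.find (Nat.exists_infinite_primes ((lc p.1 (p.1.length - 1)).1 +
    (lc p.1 (p.1.length - 1)).2 + 3))

/-- the modulus -/
noncomputable def Tf (p : List Z × List Z) : ℕ := (qf p ^ p.1.length).factorial

/-- the class of `r` contains a nonzero term -/
def nz (p : List Z × List Z) (r : ℕ) : Prop :=
  ∃ l < p.1.length, (vv p (r + Tf p * l)).1 ≠ (vv p (r + Tf p * l)).2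

/-- the bound for the number of isolated zeros -/
noncomputable def Bd (p : List Z × List Z) : ℕ :=
  ∑ r ∈ range (Tf p), ∑ l ∈ range p.1.length,
    (2 * ((vv p (r + Tf p * l)).1 + (vv p (r + Tf p * l)).2) + 2)

/-- isolated zeros -/
def Spor (p : List Z × List Z) (n : ℕ) : Prop :=
  Val p ∧ (vv p n).1 = (vv p n).2 ∧ nz p (n % Tf p)

theorem qf_spec (p : List Z × List Z) : (lc p.1 (p.1.length - 1)).1 +
    (lc p.1 (p.1.length - 1)).2 + 3 ≤ qf p ∧ (qf p).Prime :=
  Nat.find_spec (Nat.exists_infinite_primes ((lc p.1 (p.1.length - 1)).1 +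
    (lc p.1 (p.1.length - 1)).2 + 3))

theorem Tf_pos (p : List Z × List Z) : 1 ≤ Tf p := Nat.factorial_pos _

theorem iv_eq_zero (z : Z) : iv z = 0 ↔ z.1 = z.2 := by
  unfold iv
  omega

theorem abs_iv_le (z : Z) : |iv z| ≤ ((z.1 + z.2 : ℕ) : ℤ) := by
  unfold iv
  rw [abs_le]
  push_cast
  constructor <;> omega

theorem per {p : List Z × List Z} (hp : Val p) : ∃ a w : ℤ[X],
    X ^ Tf p - 1 = PG (Pool.Agent.H884R2.Sko.Fq p.1) * a + C (qf p : ℤ) * w := by
  have h1 := hp.2.1
  have h2 := period (PG_monic (Pool.Agent.H884R2.Sko.Fq p.1)) (qf_spec p).2 (coeff0_sq hp) (by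
    rw [PG_coeff, Pool.Agent.H884R2.Sko.Fq_length, if_pos (by omega),
      Pool.Agent.H884R2.Sko.Fq_getD (by omega), iv_zn, Nat.sub_zero, Int.natAbs_neg]
    have h3 := abs_iv_le (lc p.1 (p.1.length - 1))
    have h4 := (qf_spec p).1
    rw [Int.abs_eq_natAbs] at h3
    unfold lc at h3 h4
    omega)
  rw [PG_natDegree, Pool.Agent.H884R2.Sko.Fq_length] at h2
  exact h2

/-- a class without nonzero terms at the beginning vanishes -/
theorem zero_class {p : List Z × List Z} (hp : Val p) {r : ℕ} (hr : ¬ nz p r) (l : ℕ) :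
    sq p (r + Tf p * l) = 0 := by
  obtain ⟨h, hm, hd, hA⟩ := decim (PG_monic (Pool.Agent.H884R2.Sko.Fq p.1)) (Tf p)
  refine (hA _ (ann_sq hp) r).eq_zero hm (fun n hn => ?_) l
  rw [hd, PG_natDegree, Pool.Agent.H884R2.Sko.Fq_length] at hn
  by_contra hne
  exact hr ⟨n, hn, fun he => hne ((iv_eq_zero _).2 he)⟩

/-- the zeros in a class which contains a nonzero term -/
theorem class_count {p : List Z × List Z} (hp : Val p) {r : ℕ} (hr : nz p r) (M : ℕ) :
    ((range M).filter (fun l => sq p (r + Tf p * l) = 0)).card ≤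
      ∑ l ∈ range p.1.length,
        (2 * ((vv p (r + Tf p * l)).1 + (vv p (r + Tf p * l)).2) + 2) := by
  obtain ⟨l0, hl0, hne⟩ := hr
  obtain ⟨a, w, hper⟩ := per hp
  set L := (range M).filter (fun l => sq p (r + Tf p * l) = 0) with hL
  have h1 := c9 _ _ _ _ _ (sq p) r L.card L (PG_monic _) (qf_spec p).2
    (by have := (qf_spec p).1; omega) (Tf_pos p) hper (ann_sq hp) le_rfl
    (fun l hl => (Finset.mem_filter.1 hl).2) l0
  have h2 : (3 : ℤ) ^ (L.card / 2) ≤ |sq p (r + Tf p * l0)| := by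
    rcases h1 with h1 | h1
    · exact absurd ((iv_eq_zero _).1 h1) hne
    · exact h1
  have h3 := abs_iv_le (vv p (r + Tf p * l0))
  have h4 : 3 ^ (L.card / 2) ≤ (vv p (r + Tf p * l0)).1 + (vv p (r + Tf p * l0)).2 := by
    have : (3 : ℤ) ^ (L.card / 2) ≤
        (((vv p (r + Tf p * l0)).1 + (vv p (r + Tf p * l0)).2 : ℕ) : ℤ) := h2.trans h3
    exact_mod_cast this
  have h5 : L.card / 2 < 3 ^ (L.card / 2) := Nat.lt_pow_self (by norm_num)
  have h6 : 2 * ((vv p (r + Tf p * l0)).1 + (vv p (r + Tf p * l0)).2) + 2 ≤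
      ∑ l ∈ range p.1.length,
        (2 * ((vv p (r + Tf p * l)).1 + (vv p (r + Tf p * l)).2) + 2) :=
    Finset.single_le_sum (f := fun l => 2 * ((vv p (r + Tf p * l)).1 +
      (vv p (r + Tf p * l)).2) + 2) (fun _ _ => Nat.zero_le _) (Finset.mem_range.2 hl0)
  omega

/-- the number of isolated zeros -/
theorem count (p : List Z × List Z) (N : ℕ) :
    ((range N).filter (fun n => Spor p n)).card ≤ Bd p := by
  by_cases hp : Val p
  swap
  · rw [Finset.filter_false_of_mem (fun n _ h => hp h.1)]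
    exact Nat.zero_le _
  have hT := Tf_pos p
  have hsub : (range N).filter (fun n => Spor p n) ⊆ (range (Tf p)).biUnion (fun r =>
      if nz p r then ((range N).filter (fun l => sq p (r + Tf p * l) = 0)).image
        (fun l => r + Tf p * l) else ∅) := by
    intro n hn
    rw [Finset.mem_filter, Finset.mem_range] at hn
    obtain ⟨hnN, _, h0, hz⟩ := hn
    rw [Finset.mem_biUnion]
    refine ⟨n % Tf p, Finset.mem_range.2 (Nat.mod_lt _ hT), ?_⟩
    rw [if_pos hz, Finset.mem_image]
    refine ⟨n / Tf p, ?_, Nat.mod_add_div n (Tf p)⟩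
    rw [Finset.mem_filter, Finset.mem_range, Nat.mod_add_div]
    exact ⟨(Nat.div_le_self _ _).trans_lt hnN, (iv_eq_zero _).2 h0⟩
  refine (Finset.card_le_card hsub).trans (Finset.card_biUnion_le.trans ?_)
  unfold Bd
  refine Finset.sum_le_sum fun r _ => ?_
  split_ifs with hr
  · exact Finset.card_image_le.trans (class_count hp hr N)
  · exact Nat.zero_le _

/-- isolated zeros are the zeros in no infinite arithmetic progression of zeros -/
theorem spor_iff {p : List Z × List Z} (hp : Val p) (n : ℕ) :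
    Spor p n ↔ sq p n = 0 ∧ ∀ b, 0 < b → ∃ l, sq p (n + b * l) ≠ 0 := by
  have hT := Tf_pos p
  constructor
  · rintro h
    refine ⟨(iv_eq_zero _).2 h.2.1, fun b hb => ?_⟩
    by_contra hcon
    push Not at hcon
    -- many isolated zeros
    set B := Bd p
    have hinj : Function.Injective (fun l : ℕ => n + b * (Tf p * l)) := by
      intro x y hxy
      simp only [Nat.add_left_cancel_iff] at hxy
      exact Nat.eq_of_mul_eq_mul_left (by omega) (Nat.eq_of_mul_eq_mul_left hb hxy)
    have h1 : (Finset.range (B + 1)).image (fun l : ℕ => n + b * (Tf p * l)) ⊆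
        (range (n + b * (Tf p * B) + 1)).filter (fun n => Spor p n) := by
      intro x hx
      rw [Finset.mem_image] at hx
      obtain ⟨l, hl, rfl⟩ := hx
      rw [Finset.mem_range] at hl
      rw [Finset.mem_filter, Finset.mem_range]
      refine ⟨?_, hp, (iv_eq_zero _).1 (hcon (Tf p * l)), ?_⟩
      · have : b * (Tf p * l) ≤ b * (Tf p * B) :=
          Nat.mul_le_mul_left _ (Nat.mul_le_mul_left _ (by omega))
        omega
      · rw [show n + b * (Tf p * l) = n + Tf p * (b * l) by ring, Nat.add_mul_mod_self_left]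
        exact h.2.2
    have h2 := Finset.card_le_card h1
    rw [Finset.card_image_of_injective _ hinj, Finset.card_range] at h2
    have h3 := count p (n + b * (Tf p * B) + 1)
    omega
  · rintro ⟨h0, h⟩
    refine ⟨hp, (iv_eq_zero _).1 h0, ?_⟩
    by_contra hnz
    obtain ⟨l, hl⟩ := h (Tf p) (by omega)
    apply hl
    have h1 := zero_class hp hnz (n / Tf p + l)
    rwa [mul_add, ← add_assoc, Nat.mod_add_div] at h1

end Pool.Agent.TH997.SP
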